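import Pool.Agent.H56.V0S.EvC

/-!
# Closed gradients of one target, other targets in longer windows

As `Pool.V0S.vs_finC`, but the window `Xt i0` of the target with the gradients may be shorter than the
windows of the time and of the contact coordinates (`X`): the other targets may have more digits than
the target `i0`. The gradients `gg` are in the units of the windows: `2 ^ Xt i0` times the value is
`2 ^ X` times `gg` times the height. `SdED`: the inputs on one event. `vs_finD`: the gradient of `i0` is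
closed.
-/

set_option autoImplicit false

namespace Pool.V0S

open Finset Real MvPolynomial
open Pool.Agent.H49.Ent Pool.Agent.H32.Dense
open Pool.STK hiding pr2
open Pool.KA Pool.KSAT Pool.K2S Pool.PB Pool.S6C
open Pool.GEN Pool.CHT Pool.CHX Pool.ISO Pool.LA91 Pool.AVG71 Pool.AVG5 Pool.D2F2 Pool.AVG57
open Pool.PB.Trl (rt rt_mem t_rt)
open Pool.KVA (MI)
open Pool.KAF (rs Pr)
open Pool.FS21 (oth)
open Pool.BFL (Pb)
open Pool.V0F (jh jv Vv th0 CH_ge CH_jh jet2_jh jet2_jv jhv_jet2 CH_tr mi_side cE0_le)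
open Pool.VS64 (adP GrdP PrP Mt Evp pp_clo adP_ti)
open Pool.LV64 (VD Vm)

variable {m J : ℕ}

/-- **The inputs of the targets** on one event `B`, for one law `p`. -/
structure SdED (F : Fam m J) (c : ℕ → Fin m) (r q w W X K : ℕ) {C : ℕ} (Xt : Fin C → ℕ)
    (i0 : Fin C) (γ : ℕ → ℕ) (B : F.Ω → Prop)
    (G₀ : PtT F → ℕ → MvPolynomial (Option (Fin m)) ℝ)
    (H : LnT F → ℕ → MvPolynomial (Option (Fin m)) ℝ) (gg : F.Ω → Fin r → ℝ)
    (tp : F.Ω → Fin C → Polynomial ℝ) {ζ σ χ₁ χ₂ ρ₁ ρ₂ κ : Type} (zw : F.Ω → ζ) (sd : F.Ω → σ)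
    (Cj : F.Ω → χ₁) (Cx : F.Ω → χ₂) (Rj : F.Ω → ρ₁) (Rx : F.Ω → ρ₂) (Qr : F.Ω → κ)
    (p : F.Ω → ℝ) (Nf Nn Nu : ℕ → ℕ → ℝ) (nb : ℕ → ℝ) (π₀ U Ur e : ℝ) : Prop where
  /-- the paths of the targets and the side path are functions of the line -/
  tL : Det p (slam F W) tp
  sL : Det p (slam F W) sd
  dP : ∀ ω, 0 < p ω → ∀ u, (tp ω u).natDegree ≤ K
  /-- the windows of the targets -/
  xX : ∀ u, Xt u ≤ X
  /-- the gradients -/
  grd : GrdP F c (mv0 r) Xt q W X γ U B G₀ (ggC i0 gg) tp (ctx F W zw sd) Cj Cx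
  chj : CH p Cj Rj ≤ e
  chx : CH p Cx Rx ≤ e
  zx : CH p zw Rx ≤ e
  /-- the mutual informations -/
  out : Out p zw Rj Rx F.W (jh F c r w H fun l => Nn l 0) (jh F c r w H fun l => Nf l 0)
    (jv F c r w H fun l => Nn l 1) (jv F c r w H fun l => Nf l 1) sd (Mn F W tp) (Mc F W Xt tp) e
  /-- the codes of the targets -/
  dj : CH p (fun ω u (a : Fin K) => ⌊(2 : ℝ) ^ Xt u * (tp ω u).coeff a.succ⌋)
    (fun ω => ((jh F c r w H (fun l => Nf l 0) ω, jv F c r w H (fun l => Nf l 1) ω),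
      (sd ω, (zw ω, F.W ω)))) ≤ e
  jt : CH p (fun ω u (a : Fin (K + 1)) => ⌊(2 : ℝ) ^ Xt u * (tp ω u).coeff a⌋ / 2 ^ Xt u)
    (fun ω => ((jh F c r w H (fun l => Nu l 0) ω, jv F c r w H (fun l => Nu l 1) ω),
      (sd ω, (Rx ω, F.W ω)))) ≤ e
  /-- the far digits of the contact coordinates are free -/
  vf : r * (X * Real.log 2) - e ≤ CH p (Vv F c r w H fun l => nb l * J)
    (fun ω => ((jh F c r w H (fun l => Nn l 0) ω, jv F c r w H (fun l => Nn l 1) ω),
      (Rx ω, (sd ω, F.W ω))))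
  /-- the row -/
  row : ∀ E : Set F.Ω, π₀ ≤ Pr p E → CH (rs p E) (fun ω => Mc F W Xt tp ω i0)
    (fun ω => ((Mn F W tp ω i0, oth i0 (Mc F W Xt tp ω)),
      (Vv F c r w H (fun l => nb l * J) ω, ((sd ω, (zw ω, F.W ω)), Qr ω)))) ≤ Ur

/-- **Closed gradient of the target `i0`**, given the digits of the other targets, on one event. The
window of the target `i0` may be shorter than those of the others. -/
theorem vs_finD (C r K : ℕ) (hK : 1 ≤ K) {h x₀ σ₀ ε : ℝ} (hh : 0 < h) (hh1 : h ≤ 1) (hx : 0 < x₀)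
    (hxh : x₀ < h) (hσ : 0 < σ₀) (hε : 0 < ε) :
    ∃ ι π₀ C₁ : ℝ, 0 < ι ∧ 0 < π₀ ∧ 0 ≤ C₁ ∧ ∃ X₀ : ℕ,
      ∀ {m J : ℕ} {F : Fam m J} {c : ℕ → Fin m} {q w W X mm D : ℕ} {Xt : Fin C → ℕ} {i0 : Fin C}
        {γ : ℕ → ℕ} {B : F.Ω → Prop} {G₀ : PtT F → ℕ → MvPolynomial (Option (Fin m)) ℝ}
        {H : LnT F → ℕ → MvPolynomial (Option (Fin m)) ℝ} {gg : F.Ω → Fin r → ℝ}
        {tp : F.Ω → Fin C → Polynomial ℝ} {ζ σ χ₁ χ₂ ρ₁ ρ₂ κ : Type} {zw : F.Ω → ζ}
        {sd : F.Ω → σ} {Cj : F.Ω → χ₁} {Cx : F.Ω → χ₂} {Rj : F.Ω → ρ₁} {Rx : F.Ω → ρ₂}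
        {Qr : F.Ω → κ} {p : F.Ω → ℝ}
        {Nf Nn Nu Nv : ℕ → ℕ → ℝ} {nb : ℕ → ℝ} {U Ur e e₁ d ψ ε₀ : ℝ} {j₀ : ℕ},
        IsLaw p → (∀ ω, 0 < p ω → B ω) → w ≤ W → W + X ≤ J →
        (∀ s l, (H s l).totalDegree ≤ D) → D + 1 ≤ K →
        (∀ ω, B ω → ∀ l < r, G₀ (ptr F J ω) l = H (slam F w ω) l) → U + 1 ≤ 2 ^ mm →
        Det p (slam F W) zw →
        SdED F c r q w W X K Xt i0 γ B G₀ H gg tp zw sd Cj Cx Rj Rx Qr p Nf Nn Nu nb π₀ U Ur e →
        Det p (fun ω => (rt F W ω, (adP F c (mv0 r) Xt q w W X mm γ (ggC i0 gg) H tp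
          (ctx F W zw sd)).g K ω)) Qr →
        (∀ l < r, Nn l 0 * J ≤ (γ l + q : ℕ)) →
        (∀ l < r, Nn l 1 * J + W ≤ (γ l + q + (X + mm) : ℕ)) →
        (∀ l < r, Nu l 0 * J ≤ (γ l + q : ℕ)) →
        (∀ l < r, Nu l 1 * J + W ≤ (γ l + q + (X + mm) : ℕ)) →
        (∀ l < r, CH p (Pool.AVG71.cod F W 2 K (2 ^ (γ l + q + (X + mm))) (c l)
          (fun s => upw w W s) (fun s => H s l)) F.W ≤ e₁) →
        (∀ l < r, ((γ l + q + (X + mm) : ℕ) : ℝ) ≤ Nf l 0 * J) →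
        (∀ l < r, ((γ l + q + (X + mm) : ℕ) : ℝ) ≤ Nf l 1 * J + W) →
        (∀ l < r, ((γ l + q : ℕ) : ℝ) ≤ Nv l 0 * J) →
        (∀ l < r, ((γ l + q + (X + mm) : ℕ) : ℝ) ≤ Nv l 1 * J + W) →
        (∀ l, Nv l 1 = Nn l 1) → 0 ≤ d → (∀ l < r, (Nv l 0 - Nn l 0) * J ≤ d) →
        (∀ l < r, ((γ l + q + X : ℕ) : ℝ) ≤ nb l * J) →
        (∀ l < r, nb l * J ≤ (γ l + q + (X + mm) : ℕ)) →
        TimW F p W j₀ ε₀ ψ → X₀ ≤ X → 0 ≤ e₁ →
        e + r * (d * Real.log 2 + Real.log 5) + r * e₁ + C₁ + ψ * J ≤ ι * X →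
        (mm : ℝ) ≤ ι * X →
        Ur ≤ (1 - h) * X * Real.log 2 + ι * X →
        ∃ mu : LnT F → Fin r → Polynomial ℝ, (∀ s j, (mu s j).natDegree ≤ K) ∧
          (∀ s j (u : ℝ), |(mu s j).eval u| ≤ (K + 1) * (|u| + 1) ^ K * (2 : ℝ) ^ (σ₀ * X)) ∧
          Pb p (fun ω => ∃ j, (2 : ℝ) ^ (-(x₀ * X)) <
            |gg ω j - (mu (slam F W ω) j).eval (rt F W ω)|) ≤ ε ∧
          ∀ Y : ℕ, (Y : ℝ) ≤ x₀ * X → ∀ j, CH p (fun ω => ⌊(2 : ℝ) ^ Y * gg ω j⌋)
            (fun ω => (rt F W ω, (adP F c (mv0 r) Xt q w W X mm γ (ggC i0 gg) H tp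
              (ctx F W zw sd)).g K ω)) ≤ ε * X := by
  classical
  obtain ⟨ι₀, π₀, hι₀, hπ₀, X1, Hm⟩ := pp_clo C r K hK hh hh1 hx hxh hσ hε
  obtain ⟨B₁, hB₁, hB⟩ := cE0_le r K
  obtain ⟨Ca, hCa, hac⟩ := ac_vaC C r K
  have hl2 : 0 < Real.log 2 := Real.log_pos one_lt_two
  have hl5 : 0 < Real.log 5 := Real.log_pos (by norm_num)
  have hr0 : (0 : ℝ) ≤ r := Nat.cast_nonneg r
  have hC0 : (0 : ℝ) ≤ C := Nat.cast_nonneg C
  have hlK : 0 ≤ Real.log (2 * ((K : ℝ) + 2) + 1) := Real.log_nonneg (by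
    have : (0 : ℝ) ≤ K := Nat.cast_nonneg K
    linarith)
  have hClK : 0 ≤ C * Real.log (2 * ((K : ℝ) + 2) + 1) := mul_nonneg hC0 hlK
  obtain ⟨ι, hι⟩ : ∃ ι : ℝ, ι = ι₀ / (32 * (r + 2) * (C + 1)) := ⟨_, rfl⟩
  have hιp : 0 < ι := by rw [hι]; positivity
  have hι1 : 32 * (r + 2) * (C + 1) * ι = ι₀ := by rw [hι]; field_simp
  have hι2 : 32 * (C + 1) * ι ≤ ι₀ := by
    have h1 : 32 * (C + 1) * ι * 1 ≤ 32 * (C + 1) * ι * (r + 2) :=
      mul_le_mul_of_nonneg_left (by linarith) (by positivity)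
    linarith
  have hι3 : 32 * ι ≤ ι₀ := by
    have h1 : 32 * ι * 1 ≤ 32 * ι * (C + 1) := mul_le_mul_of_nonneg_left (by linarith)
      (by positivity)
    linarith
  obtain ⟨X2, hX2⟩ := exists_nat_ge (((C + 1) * B₁ + (C + 1 + r) * cV K) / (ι₀ / 4))
  obtain ⟨X3, hX3⟩ := exists_nat_ge (C * Real.log (2 * ((K : ℝ) + 2) + 1) / (ι₀ / 2))
  refine ⟨ι, π₀, Ca + C * Real.log (2 * ((K : ℝ) + 2) + 1), hιp, hπ₀, by positivity,
    max X1 (max X2 (max K X3)), ?_⟩
  intro m J F c q w W X mm D Xt i0 γ B G₀ H gg tp ζ σ χ₁ χ₂ ρ₁ ρ₂ κ zw sd Cj Cx Rj Rx Qr p Nf Nn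
    Nu Nv nb U Ur e e₁ d ψ ε₀ j₀ hp sup wW hWX deg DK cls mU zL S hQr n0 n1 u0 u1 hc2 f0 f1 v0 v1
    hv1 hd0 hv0 nb1 nb2 T hX he1 he hmm hUr
  have h0 := hp.nonneg
  have hWJ : W ≤ J := by omega
  have hX0 : (0 : ℝ) ≤ X := Nat.cast_nonneg X
  have hXK : K ≤ X := (le_max_left _ _).trans ((le_max_right _ _).trans
    ((le_max_right _ _).trans hX))
  have hXX1 : X1 ≤ X := (le_max_left _ _).trans hX
  have hXX2 : (X2 : ℝ) ≤ X := by
    exact_mod_cast (le_max_left _ _).trans ((le_max_right _ _).trans hX)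
  have hXX3 : C * Real.log (2 * ((K : ℝ) + 2) + 1) ≤ ι₀ / 2 * X := by
    have h1 : (X3 : ℝ) ≤ X := by
      exact_mod_cast (le_max_right _ _).trans ((le_max_right _ _).trans
        ((le_max_right _ _).trans hX))
    have h2 := hX3.trans h1
    rwa [div_le_iff₀ (by linarith), mul_comm (X : ℝ)] at h2
  have he0 : 0 ≤ e := (CH_nonneg h0 _ _).trans S.chj
  have hψ : 0 ≤ ψ * J := by
    have h1 := T.mi (F.T1 W) (fun ω ν _ _ e => (Prod.ext_iff.mp (Prod.ext_iff.mp e).2).2)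
      (fun _ _ _ _ e => e)
    refine le_trans ?_ h1
    rw [MI_eq h0]
    have := CH_mono_cond h0 (X := F.T) (W' := fun ω => (slam F W ω, F.T1 W ω)) (W := F.T1 W)
      (fun ω ν _ _ e => (Prod.ext_iff.mp e).2)
    linarith
  have hre1 : 0 ≤ r * e₁ := by positivity
  have hrd : 0 ≤ r * (d * Real.log 2 + Real.log 5) := by positivity
  obtain ⟨e', he'⟩ : ∃ e' : ℝ, e' = e + r * (d * Real.log 2 + Real.log 5) + r * e₁ +
    (Ca + C * Real.log (2 * ((K : ℝ) + 2) + 1)) + ψ * J := ⟨_, rfl⟩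
  rw [← he'] at he
  have hee : e ≤ e' := by rw [he']; linarith
  have hz : Det p (slam F W) (ctx F W zw sd) := fun ω ν a b hh => by
    unfold ctx
    rw [zL ω ν a b hh, S.sL ω ν a b hh, hh]
  have hzT : Det p (ctx F W zw sd) (F.T1 W) := fun ω ν _ _ hh =>
    (Prod.ext_iff.mp (Prod.ext_iff.mp (Prod.ext_iff.mp hh).2).1).2
  have htp : Det p (slam F W) tp := S.tL
  have hth : ∀ ω, 0 ≤ rt F W ω ∧ rt F W ω < 1 := fun ω => by
    have h := tw_mem F hWJ ω
    rw [tw_rt F hWJ ω] at h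
    exact h
  -- the time from the position in the window and the context
  have key1 : ∀ {ω ν : F.Ω}, rt F W ω = rt F W ν → ctx F W zw sd ω = ctx F W zw sd ν →
      zw ω = zw ν ∧ sd ω = sd ν ∧ F.W ω = F.W ν := by
    intro ω ν h1 h2
    obtain ⟨h3, h4⟩ := Prod.ext_iff.mp h2
    obtain ⟨h5, h6⟩ := Prod.ext_iff.mp h4
    exact ⟨h3, h6, adM_T hWJ h1 h5⟩
  have key2 : ∀ {ω ν : F.Ω}, F.W ω = F.W ν → zw ω = zw ν → sd ω = sd ν →
      rt F W ω = rt F W ν ∧ ctx F W zw sd ω = ctx F W zw sd ν := by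
    intro ω ν h1 h2 h3
    obtain ⟨h4, h5⟩ := Prod.ext_iff.mp h1
    have h4' : F.T ω = F.T ν := h4
    have h5' : F.Z ω = F.Z ν := h5
    refine ⟨?_, ?_⟩
    · rw [← tw_rt F hWJ, ← tw_rt F hWJ]
      exact tw_of_T F h4'
    · unfold ctx
      have h6 : (slam F W ω).2 = (slam F W ν).2 := by
        show (F.Z ω, F.T1 W ω) = (F.Z ν, F.T1 W ν)
        unfold Fam.T1
        rw [h4', h5']
      rw [h2, h3, h6]
  obtain ⟨a1, a2⟩ := hac (F := F) (c := c) (q := q) (w := w) (W := W) (X := X) (mm := mm)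
    (γ := γ) (H := H) (gg := ggC i0 gg) (tp := tp) (zw := zw) (sd := sd)
    (Xt := Xt) hp wW hWJ deg DK he1 hc2
  have P : PrP F c (mv0 r) Xt q w W X mm D K γ B G₀ H (ggC i0 gg)
      tp (ctx F W zw sd) zw (fun ω => (sd ω, F.W ω)) Cj Cx Rj Rx
      (Vm F c (mv0 r) w H fun l => nb l * J) (Mn F W tp) (Mc F W Xt tp) p (fun l => Nf l) (fun l => Nn l)
      (fun l => Nn l) (fun l => Nu l) (fun l => Nv l) U (r * (X * Real.log 2)) e' :=
    { law := hp
      sup := sup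
      wW := wW
      WJ := hWJ
      deg := deg
      dP := fun ω hω u => S.dP ω hω u
      DK := DK
      KX := by
        have h1 : (K : ℝ) ≤ 2 ^ K := by exact_mod_cast Nat.lt_two_pow_self.le
        exact h1.trans (pow_le_pow_right₀ (by norm_num) (by omega))
      Xtm := S.xX
      cls := fun ω hω j => cls ω hω j j.2
      grd := S.grd
      mU := mU
      zT := hzT
      czy := by
        rw [CH_eq_zero h0 fun ω ν _ _ hh => by
          simp only [Prod.mk.injEq] at hh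
          obtain ⟨b1, b2⟩ := key2 hh.2.2 hh.1 hh.2.1
          exact Prod.ext b1 b2]
        linarith
      cyz := by
        rw [CH_eq_zero h0 fun ω ν _ _ hh => by
          simp only [Prod.mk.injEq] at hh
          obtain ⟨b1, b2, b3⟩ := key1 hh.1 hh.2
          exact Prod.ext b1 (Prod.ext b2 b3)]
        linarith
      ti := by
        have := adP_ti (c := c) (mv := mv0 r) (Xt := Xt) (q := q) (w := w)
          (X := X) (mm := mm) (γ := γ) (gg := ggC i0 gg) (H := H) hp T hz htp hzT K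
        rw [he']
        linarith
      mj := by
        have h1 := mi_side h0 Rj
          (A := fun ω => ((jh F c r w H (fun l => Nf l 0) ω, jv F c r w H (fun l => Nf l 1) ω),
            Mc F W Xt tp ω))
          (A' := fun ω => (jetm F c (mv0 r) w H (fun l => Nf l) ω,
            Mc F W Xt tp ω)) (s := fun _ => ())
          (W := fun ω => (((jh F c r w H (fun l => Nn l 0) ω, jv F c r w H (fun l => Nn l 1) ω),
            Mn F W tp ω), (zw ω, (sd ω, F.W ω))))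
          (W' := fun ω => ((jetm F c (mv0 r) w H (fun l => Nn l) ω,
            Mn F W tp ω), (zw ω, (sd ω, F.W ω)))) (e := 0)
          (fun ω ν hω hν hh => by
            obtain ⟨b1, b2⟩ := Prod.ext_iff.mp (Prod.ext_iff.mp hh).1
            exact Prod.ext (jhv_jetm Nf ω ν hω hν b1) b2)
          (fun ω ν hω hν hh => by
            obtain ⟨b1, b2⟩ := Prod.ext_iff.mp hh
            obtain ⟨b3, b4⟩ := Prod.ext_iff.mp b1
            exact Prod.ext (Prod.ext (jetm_jhv Nn ω ν hω hν b3) b4) b2)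
          (fun ω ν hω hν hh => by
            obtain ⟨b1, b2⟩ := Prod.ext_iff.mp (Prod.ext_iff.mp hh).1
            exact Prod.ext (jetm_jhv Nf ω ν hω hν b1) b2)
          (fun ω ν hω hν hh => by
            obtain ⟨b1, b2⟩ := Prod.ext_iff.mp (Prod.ext_iff.mp hh).2
            obtain ⟨b3, b4⟩ := Prod.ext_iff.mp b1
            exact Prod.ext (Prod.ext (jhv_jetm Nn ω ν hω hν b3) b4) b2)
          (le_of_eq (CH_eq_zero h0 fun _ _ _ _ _ => rfl))
        have h2 := S.out.mj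
        linarith
      mx := by
        have h1 := mi_side h0 Rx
          (A := fun ω => (jh F c r w H (fun l => Nf l 0) ω, jv F c r w H (fun l => Nf l 1) ω))
          (A' := jetm F c (mv0 r) w H (fun l => Nf l)) (s := fun _ => ())
          (W := fun ω => ((jh F c r w H (fun l => Nn l 0) ω, jv F c r w H (fun l => Nn l 1) ω),
            (zw ω, (sd ω, F.W ω))))
          (W' := fun ω => (jetm F c (mv0 r) w H (fun l => Nn l) ω, (zw ω, (sd ω, F.W ω))))
          (e := 0)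
          (fun ω ν hω hν hh => jhv_jetm Nf ω ν hω hν (Prod.ext_iff.mp hh).1)
          (fun ω ν hω hν hh => by
            obtain ⟨b1, b2⟩ := Prod.ext_iff.mp hh
            exact Prod.ext (jetm_jhv Nn ω ν hω hν b1) b2)
          (fun ω ν hω hν hh => jetm_jhv Nf ω ν hω hν (Prod.ext_iff.mp hh).1)
          (fun ω ν hω hν hh => by
            obtain ⟨b1, b2⟩ := Prod.ext_iff.mp (Prod.ext_iff.mp hh).2
            exact Prod.ext (jhv_jetm Nn ω ν hω hν b1) b2)
          (le_of_eq (CH_eq_zero h0 fun _ _ _ _ _ => rfl))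
        have h2 := S.out.mx
        linarith
      chj := S.chj.trans hee
      chx := S.chx.trans hee
      zx := S.zx.trans hee
      n0 := fun j => n0 j j.2
      n1 := fun j => n1 j j.2
      x0 := fun j => n0 j j.2
      x1 := fun j => n1 j j.2
      u0 := fun j => u0 j j.2
      u1 := fun j => u1 j j.2
      tn := by
        have h1 := tn_fewC (K := K) hp (adP F c (mv0 r) Xt q w W X mm γ
          (ggC i0 gg) H tp (ctx F W zw sd)) S.dP (fun ω _ => hth ω)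
        refine le_trans h1 ?_
        rw [he']
        linarith
      tf := by
        rw [CH_eq_zero h0 fun ω ν _ _ hh => by
          exact (Prod.ext_iff.mp (Prod.ext_iff.mp hh).1).2]
        linarith
      ac := by
        have := a1 Nf f0 f1
        rw [he']
        linarith
      va := by
        have := a2 Nv v0 v1
        rw [he']
        linarith
      dj := by
        refine le_trans ?_ (S.dj.trans hee)
        refine (CH_mono_left h0 fun ω ν _ _ hh => ?_).trans (CH_mono_cond h0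
          fun ω ν hω hν hh => ?_)
        · exact (Prod.ext_iff.mp hh).1
        · obtain ⟨b1, b2⟩ := Prod.ext_iff.mp hh
          obtain ⟨b3, b4⟩ := Prod.ext_iff.mp b2
          obtain ⟨b5, b6, b7⟩ := key1 b3 b4
          exact Prod.ext (jetm_jhv Nf ω ν hω hν b1) (Prod.ext b6 (Prod.ext b5 b7))
      jt := by
        refine le_trans ?_ (S.jt.trans hee)
        refine (CH_mono_left h0 fun ω ν _ _ hh => ?_).trans (CH_mono_cond h0
          fun ω ν hω hν hh => ?_)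
        · exact (Prod.ext_iff.mp hh).1
        · obtain ⟨b1, b2⟩ := Prod.ext_iff.mp hh
          obtain ⟨b8, b9⟩ := Prod.ext_iff.mp b2
          obtain ⟨b3, b4⟩ := Prod.ext_iff.mp b9
          obtain ⟨b5, b6, b7⟩ := key1 b3 b4
          exact Prod.ext (jetm_jhv Nu ω ν hω hν b1) (Prod.ext b6 (Prod.ext b8 b7))
      vf := by
        have h1 := S.vf
        have h2 := CH_ge h0 (Vv F c r w H fun l => nb l * J) (jh F c r w H fun l => Nv l 0)
          (fun ω => ((jh F c r w H (fun l => Nn l 0) ω, jv F c r w H (fun l => Nn l 1) ω),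
            (Rx ω, (sd ω, F.W ω))))
        have h3 := CH_jh hp hv0 hd0 (fun ω => ((jh F c r w H (fun l => Nn l 0) ω,
          jv F c r w H (fun l => Nn l 1) ω), (Rx ω, (sd ω, F.W ω)))) (fun ω ν _ _ e =>
            (Prod.ext_iff.mp (Prod.ext_iff.mp e).1).1)
        have h4 : CH p (Vv F c r w H fun l => nb l * J) (fun ω => (jh F c r w H (fun l => Nv l 0) ω,
            ((jh F c r w H (fun l => Nn l 0) ω, jv F c r w H (fun l => Nn l 1) ω),
              (Rx ω, (sd ω, F.W ω))))) ≤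
            CH p (Vm F c (mv0 r) w H fun l => nb l * J)
              (fun ω => (jetm F c (mv0 r) w H (fun l => Nv l) ω, (Rx ω, (sd ω, F.W ω)))) := by
          refine CH_mono_cond h0 fun ω ν hω hν hh => ?_
          simp only [Prod.mk.injEq] at hh
          have e1 : (fun l : ℕ => Nv l 1) = fun l => Nn l 1 := funext hv1
          refine Prod.ext (jhv_jetm Nv ω ν hω hν (Prod.ext hh.1 ?_)) (Prod.ext hh.2.2.1
            (Prod.ext hh.2.2.2.1 hh.2.2.2.2))
          simp only [e1]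
          exact hh.2.1.2
        rw [he']
        linarith }
  have hcE := (hB U mm S.grd.U0 (by linarith)).1
  have he'0 : 0 ≤ e' := he0.trans hee
  have hEv : Evp C r K U e' ≤ ι₀ * X := by
    have h1 : (C + 1) * B₁ + (C + 1 + r) * cV K ≤ ι₀ / 4 * X := by
      have h2 := hX2.trans hXX2
      rw [div_le_iff₀ (by linarith)] at h2
      linarith
    have hCC : (0 : ℝ) ≤ C + 1 := by linarith
    have h3 : (C + 1) * (4 * e') ≤ ι₀ / 8 * X := by
      have h4 : 32 * (C + 1) * ι * X ≤ ι₀ * X := mul_le_mul_of_nonneg_right hι2 hX0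
      have h5 : (C + 1) * (4 * e') ≤ (C + 1) * (4 * (ι * X)) :=
        mul_le_mul_of_nonneg_left (by linarith) hCC
      have h6 : (C + 1) * (4 * (ι * X)) = 32 * (C + 1) * ι * X / 8 := by ring
      linarith
    have h5 : (C + 1) * ((r + 1) * (mm : ℝ)) ≤ ι₀ / 32 * X := by
      have h6 : (C + 1) * (((r : ℝ) + 2) * mm) ≤ (C + 1) * ((r + 2) * (ι * X)) :=
        mul_le_mul_of_nonneg_left (mul_le_mul_of_nonneg_left hmm (by positivity)) hCC
      have h7 : (C + 1) * (((r : ℝ) + 2) * (ι * X)) = ι₀ / 32 * X := by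
        rw [← hι1]
        ring
      have h8 : (C + 1) * (((r : ℝ) + 1) * mm) ≤ (C + 1) * ((r + 2) * mm) :=
        mul_le_mul_of_nonneg_left (mul_le_mul_of_nonneg_right (by linarith)
          (Nat.cast_nonneg mm)) hCC
      linarith
    have h9 : 0 ≤ ι₀ * X := by positivity
    have h10 : (C + 1) * (4 * e' + (cE0 r K U + cV K)) ≤
        (C + 1) * (4 * e' + (B₁ + (r + 1) * mm + cV K)) :=
      mul_le_mul_of_nonneg_left (by linarith) hCC
    unfold Evp
    have h11 : (C + 1) * (4 * e' + (B₁ + (r + 1) * mm + cV K)) + r * cV K =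
        (C + 1) * (4 * e') + (C + 1) * ((r + 1) * (mm : ℝ)) +
          ((C + 1) * B₁ + (C + 1 + r) * cV K) := by ring
    linarith
  have hιι : ι ≤ ι₀ := by linarith
  have hιX : ι * X ≤ ι₀ * X := mul_le_mul_of_nonneg_right hιι hX0
  have hgi : ∀ ω j, ggC i0 gg ω i0 j = gg ω j := fun ω j => if_pos rfl
  obtain ⟨mu, m1, m2, m3, m4⟩ := Hm P i0 (Qr := fun ω => (((sd ω, (zw ω, F.W ω)), Qr ω),
      (rt F W ω, (adP F c (mv0 r) Xt q w W X mm γ (ggC i0 gg) H tp (ctx F W zw sd)).g K ω)))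
    (Ur := Ur + C * Real.log (2 * ((K : ℝ) + 2) + 1)) (ψ := ψ) (ε₀ := ε₀) (j₀ := j₀)
    (fun j => nb1 j j.2) (fun j => nb2 j j.2)
    (fun ω _ u hu j => if_neg hu)
    (fun ω ν a b hh => by
      obtain ⟨b1, b2⟩ := Prod.ext_iff.mp hh
      obtain ⟨b3, b4⟩ := Prod.ext_iff.mp b2
      obtain ⟨b5, b6, b7⟩ := key1 b1 b3
      exact Prod.ext (Prod.ext (Prod.ext b6 (Prod.ext b5 b7)) (hQr ω ν a b hh)) hh)
    (fun E hE => by
      have hE0 : ∀ ω, 0 ≤ rs p E ω := fun ω => cond_nonneg h0 _ _ ω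
      have hEP : 0 < Pr p E := lt_of_lt_of_le hπ₀ hE
      have hEl : IsLaw (rs p E) := ⟨hE0, sum_cond p (fun ω => ω ∈ E) hEP.ne'⟩
      have hEp : ∀ ω, 0 < rs p E ω → 0 < p ω := fun ω hω =>
        ((cond_pos_iff h0 _ True ω).1 hω).1
      obtain ⟨Wc, hWc⟩ : ∃ Wc : F.Ω → _, Wc = fun ω => ((Mt F W Xt tp ω i0 / 2 ^ X,
          oth i0 (Mt F W Xt tp ω)), (Vm F c (mv0 r) w H (fun l => nb l * J) ω,
          (((sd ω, (zw ω, F.W ω)), Qr ω), (rt F W ω, (adP F c (mv0 r) Xt q w W X mm γ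
            (ggC i0 gg) H tp (ctx F W zw sd)).g K ω)))) := ⟨_, rfl⟩
      have s1 := CH_le_add hE0 (fun ω => Mt F W Xt tp ω i0) (Mn F W tp) Wc
      have s2 : CH (rs p E) (Mn F W tp) Wc ≤ C * Real.log (2 * ((K : ℝ) + 2) + 1) := by
        have g1 := tn_fewC (K := K) hEl (adP F c (mv0 r) Xt q w W X mm γ
          (ggC i0 gg) H tp (ctx F W zw sd)) (fun ω hω => S.dP ω (hEp ω hω)) (fun ω _ => hth ω)
        refine le_trans (CH_mono_cond hE0 (W' := Wc) fun ω ν _ _ hh => ?_) g1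
        rw [hWc] at hh
        exact (Prod.ext_iff.mp (Prod.ext_iff.mp (Prod.ext_iff.mp hh).2).2).2
      have s3 : CH (rs p E) (fun ω => Mt F W Xt tp ω i0) (fun ω => (Mn F W tp ω, Wc ω)) ≤ Ur := by
        refine le_trans ((CH_mono_cond hE0 (W := fun ω => ((Mn F W tp ω i0,
          oth i0 (Mc F W Xt tp ω)), (Vv F c r w H (fun l => nb l * J) ω,
            ((sd ω, (zw ω, F.W ω)), Qr ω)))) fun ω ν _ _ hh => ?_)) (S.row E hE)
        rw [hWc] at hh
        obtain ⟨b0, b0'⟩ := Prod.ext_iff.mp hh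
        obtain ⟨b1, b2⟩ := Prod.ext_iff.mp b0'
        obtain ⟨b3, b4⟩ := Prod.ext_iff.mp b1
        obtain ⟨b5, b6⟩ := Prod.ext_iff.mp b2
        obtain ⟨b7, b8⟩ := Prod.ext_iff.mp b6
        exact Prod.ext (Prod.ext (congrFun b0 i0) b4) (Prod.ext b5 b7)
      rw [← hWc]
      linarith)
    T hz htp hXX1 (by omega) (by
      have : ψ * J ≤ e' := by rw [he']; linarith
      linarith) (hmm.trans hιX) hEv (by
      have h1 : ι ≤ ι₀ / 2 := by linarith
      have h2 : ι * X ≤ ι₀ / 2 * X := mul_le_mul_of_nonneg_right h1 hX0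
      linarith)
  refine ⟨mu, m1, m2, ?_, ?_⟩
  · simpa only [hgi] using m3
  · simpa only [hgi] using m4

end Pool.V0S
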